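import Mathlib

set_option autoImplicit false

namespace Pool.Agent.CoHopf

open Classical in
/-- Indicator of the integers `r` such that `|r|` is a power of two. -/
noncomputable def al (r : ℤ) : ZMod 2 := if ∃ k : ℕ, r.natAbs = 2 ^ k then 1 else 0

theorem al_eq_one_iff (r : ℤ) : al r = 1 ↔ ∃ k : ℕ, r.natAbs = 2 ^ k := by
  unfold al
  split_ifs with h
  · simp [h]
  · simp [h]

theorem al_ne_one_iff (r : ℤ) : al r ≠ 1 ↔ al r = 0 := by
  unfold al
  split_ifs with h <;> simp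

theorem al_neg (r : ℤ) : al (-r) = al r := by
  have h : (-r).natAbs = r.natAbs := Int.natAbs_neg r
  unfold al
  rw [h]

theorem al_zero : al 0 = 0 := by
  unfold al
  split_ifs with h
  · obtain ⟨k, hk⟩ := h
    have : 0 < 2 ^ k := by positivity
    rw [← hk] at this
    simp at this
  · rfl

theorem al_one : al 1 = 1 := by
  rw [al_eq_one_iff]
  exact ⟨0, by simp⟩

theorem al_two_mul (r : ℤ) : al (2 * r) = al r := by
  by_cases h : al r = 1
  · rw [h, al_eq_one_iff]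
    rw [al_eq_one_iff] at h
    obtain ⟨k, hk⟩ := h
    refine ⟨k + 1, ?_⟩
    rw [Int.natAbs_mul, hk]
    simp [pow_succ, mul_comm]
  · rw [(al_ne_one_iff r).1 h, ← al_ne_one_iff]
    intro h2
    apply h
    rw [al_eq_one_iff] at h2 ⊢
    obtain ⟨k, hk⟩ := h2
    rw [Int.natAbs_mul] at hk
    have h3 : (2 : ℤ).natAbs = 2 := rfl
    rw [h3] at hk
    cases k with
    | zero => omega
    | succ k =>
      refine ⟨k, ?_⟩
      rw [pow_succ] at hk
      omega

/-- Near a large power of two there is no other signed power of two. -/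
theorem al_near {J : ℕ} {d D : ℤ} (hd : |d| ≤ D) (hJ : 2 * D < 2 ^ J) (h : al (2 ^ J + d) = 1) :
    d = 0 := by
  rw [al_eq_one_iff] at h
  obtain ⟨k, hk⟩ := h
  have hD : 0 ≤ D := le_trans (abs_nonneg d) hd
  have hd1 := abs_le.1 hd
  have hpos : (0 : ℤ) < 2 ^ J + d := by linarith [hd1.1]
  have h1 : ((2 ^ J + d).natAbs : ℤ) = 2 ^ J + d := Int.natAbs_of_nonneg hpos.le
  have h2 : (2 : ℤ) ^ J + d = 2 ^ k := by
    rw [← h1, hk]; push_cast; rfl
  rcases lt_trichotomy k J with hlt | heq | hgt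
  · exfalso
    have h3 : (2 : ℤ) ^ (k + 1) ≤ 2 ^ J := pow_le_pow_right₀ (by norm_num) hlt
    rw [pow_succ] at h3
    nlinarith [hd1.1]
  · subst heq; linarith
  · exfalso
    have h3 : (2 : ℤ) ^ (J + 1) ≤ 2 ^ k := pow_le_pow_right₀ (by norm_num) hgt
    rw [pow_succ] at h3
    nlinarith [hd1.2]

/-- number (mod 2) of ordered pairs of elements of `P` with difference `m`. -/
def qq (P : Finset ℤ) (m : ℤ) : ZMod 2 := ∑ k ∈ P, ∑ l ∈ P, if k - l = m then 1 else 0

theorem qq_neg (P : Finset ℤ) (m : ℤ) : qq P (-m) = qq P m := by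
  unfold qq
  rw [Finset.sum_comm]
  refine Finset.sum_congr rfl fun k _ => Finset.sum_congr rfl fun l _ => ?_
  have : (l - k = -m) ↔ (k - l = m) := by constructor <;> intro h <;> omega
  simp only [this]

theorem sum_eq_qq (P : Finset ℤ) (D : ℤ) (hD : ∀ k ∈ P, ∀ l ∈ P, |k - l| ≤ D) (x : ℤ) :
    ∑ k ∈ P, ∑ l ∈ P, al (x + k - l) = ∑ m ∈ Finset.Icc (-D) D, qq P m * al (x + m) := by
  unfold qq
  have h1 : ∀ m ∈ Finset.Icc (-D) D, (∑ k ∈ P, ∑ l ∈ P, if k - l = m then (1 : ZMod 2) else 0) *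
      al (x + m) = ∑ k ∈ P, ∑ l ∈ P, if k - l = m then al (x + m) else 0 := by
    intro m _
    rw [Finset.sum_mul]
    refine Finset.sum_congr rfl fun k _ => ?_
    rw [Finset.sum_mul]
    refine Finset.sum_congr rfl fun l _ => ?_
    split_ifs <;> simp
  have h2 := Finset.sum_congr (rfl : Finset.Icc (-D) D = Finset.Icc (-D) D) h1
  rw [h2]
  symm
  rw [Finset.sum_comm]
  refine Finset.sum_congr rfl fun k hk => ?_
  rw [Finset.sum_comm]
  refine Finset.sum_congr rfl fun l hl => ?_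
  rw [Finset.sum_ite_eq (Finset.Icc (-D) D) (k - l) (fun m => al (x + m))]
  have := abs_le.1 (hD k hk l hl)
  rw [if_pos (Finset.mem_Icc.2 this)]
  congr 1
  ring

/-- Key step. -/
theorem key (P : Finset ℤ) (n : ℤ) (D : ℤ) (hD : ∀ k ∈ P, ∀ l ∈ P, |k - l| ≤ D)
    (hn : n ≠ 0) (hodd : Odd n)
    (H : ∀ i : ℤ, ∑ k ∈ P, ∑ l ∈ P, al (n * i + k - l) = al i)
    (m : ℤ) (hm : |m| ≤ D) (hq : qq P m = 1) (J : ℕ) (hJ : (|n| + 4) * D + 2 < 2 ^ J)
    (hdvd : n ∣ 2 ^ J - m) : m = 0 ∧ |n| = 1 := by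
  have hD0 : 0 ≤ D := le_trans (abs_nonneg m) hm
  have hnabs : 1 ≤ |n| := Int.one_le_abs hn
  have hm1 := abs_le.1 hm
  obtain ⟨r, hr⟩ := hdvd
  have h1 : al r = 1 := by
    rw [← H r, sum_eq_qq P D hD, Finset.sum_eq_single m]
    · have : n * r + m = 2 ^ J := by rw [← hr]; ring
      rw [this, hq, one_mul, al_eq_one_iff]
      exact ⟨J, by simp [Int.natAbs_pow]⟩
    · intro m' hm' hne
      by_contra hcon
      have h2 : al (n * r + m') = 1 := by
        by_contra h3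
        rw [(al_ne_one_iff _).1 h3, mul_zero] at hcon
        exact hcon rfl
      have h4 : n * r + m' = 2 ^ J + (m' - m) := by rw [← hr]; ring
      rw [h4] at h2
      have hm2 := Finset.mem_Icc.1 hm'
      have h5 : |m' - m| ≤ 2 * D := abs_le.2 ⟨by linarith [hm2.1, hm1.2], by linarith [hm2.2, hm1.1]⟩
      have h6 := al_near h5 (by nlinarith) h2
      apply hne
      linarith
    · intro hnot
      exfalso
      exact hnot (Finset.mem_Icc.2 hm1)
  rw [al_eq_one_iff] at h1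
  obtain ⟨i, hi⟩ := h1
  have hri : |r| = 2 ^ i := by
    rw [Int.abs_eq_natAbs, hi]; push_cast; rfl
  have h2 : |n| * 2 ^ i = 2 ^ J - m := by
    have : 0 < 2 ^ J - m := by nlinarith [hm1.2]
    rw [← abs_of_pos this, hr, abs_mul, hri]
  have hiJ : i ≤ J := by
    by_contra hcon
    rw [not_le] at hcon
    have h3 : (2 : ℤ) ^ (J + 1) ≤ 2 ^ i := pow_le_pow_right₀ (by norm_num) hcon
    rw [pow_succ] at h3
    have h4 : (2 : ℤ) ^ i ≤ |n| * 2 ^ i := by
      have : (0 : ℤ) < 2 ^ i := by positivity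
      nlinarith
    nlinarith [hm1.1]
  have h3 : (2 : ℤ) ^ i ∣ m := by
    have h4 : (2 : ℤ) ^ i ∣ 2 ^ J := pow_dvd_pow 2 hiJ
    have h5 : (2 : ℤ) ^ i ∣ 2 ^ J - m := ⟨|n|, by rw [← h2]; ring⟩
    have h6 := dvd_sub h4 h5
    simpa using h6
  have hm0 : m = 0 := by
    by_contra hne
    have h4 : (2 : ℤ) ^ i ≤ |m| := Int.le_of_dvd (abs_pos.2 hne) ((dvd_abs _ _).2 h3)
    have h5 : |n| * 2 ^ i ≤ |n| * D := by
      apply mul_le_mul_of_nonneg_left (le_trans h4 hm) (abs_nonneg n)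
    nlinarith [hm1.2]
  refine ⟨hm0, ?_⟩
  rw [hm0, sub_zero] at h2
  have h4 : (n.natAbs) ∣ 2 ^ J := by
    have : (n.natAbs : ℤ) ∣ ((2 ^ J : ℕ) : ℤ) := by
      have h5 : (n.natAbs : ℤ) = |n| := (Int.abs_eq_natAbs n).symm
      rw [h5]
      push_cast
      exact ⟨2 ^ i, h2.symm⟩
    exact Int.natCast_dvd_natCast.1 this
  have h5 : Odd n.natAbs := Int.natAbs_odd.2 hodd
  have h6 : Nat.Coprime n.natAbs (2 ^ J) := by
    apply Nat.Coprime.pow_right
    exact (Nat.coprime_two_right).2 h5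
  have h7 : n.natAbs = 1 := Nat.Coprime.eq_one_of_dvd h6 h4
  rw [Int.abs_eq_natAbs, h7]
  rfl

theorem exists_big (n : ℤ) (hodd : Odd n) (j : ℕ) (B : ℤ) :
    ∃ J : ℕ, B < 2 ^ J ∧ n ∣ 2 ^ J - 2 ^ j := by
  have hn : n ≠ 0 := by
    rintro rfl
    simp at hodd
  have h5 : Odd n.natAbs := Int.natAbs_odd.2 hodd
  have hcop : Nat.Coprime 2 n.natAbs := (Nat.coprime_two_left).2 h5
  have hmod := Nat.ModEq.pow_totient hcop
  set φ := Nat.totient n.natAbs with hφ
  have hφpos : 0 < φ := Nat.totient_pos.2 (Int.natAbs_pos.2 hn)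
  refine ⟨j + φ * B.toNat, ?_, ?_⟩
  · have h1 : B.toNat < 2 ^ B.toNat := Nat.lt_two_pow_self
    have h2 : (2 : ℕ) ^ B.toNat ≤ 2 ^ (j + φ * B.toNat) := by
      apply Nat.pow_le_pow_right (by norm_num)
      nlinarith
    have h3 : B ≤ (B.toNat : ℤ) := Int.self_le_toNat B
    have h4 : (B.toNat : ℤ) < ((2 ^ (j + φ * B.toNat) : ℕ) : ℤ) := by
      exact_mod_cast lt_of_lt_of_le h1 h2
    push_cast at h4
    linarith
  · have h1 : 2 ^ (φ * B.toNat) ≡ 1 [MOD n.natAbs] := by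
      rw [pow_mul]
      simpa using hmod.pow B.toNat
    have h2 : (n.natAbs : ℤ) ∣ ((2 ^ (φ * B.toNat) : ℕ) : ℤ) - ((1 : ℕ) : ℤ) := by
      exact (Nat.modEq_iff_dvd.1 h1.symm)
    have h3 : n ∣ (2 : ℤ) ^ (φ * B.toNat) - 1 := by
      have h6 := Int.natAbs_dvd.1 h2
      push_cast at h6
      exact h6
    have h4 : (2 : ℤ) ^ (j + φ * B.toNat) - 2 ^ j = 2 ^ j * (2 ^ (φ * B.toNat) - 1) := by
      rw [pow_add]; ring
    rw [h4]
    exact Dvd.dvd.mul_left h3 _

theorem comb (P : Finset ℤ) (n : ℤ) (hodd : Odd n)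
    (H : ∀ i : ℤ, ∑ k ∈ P, ∑ l ∈ P, al (n * i + k - l) = al i) :
    (n = 1 ∨ n = -1) ∧ ∃ k, P = {k} := by
  have hn : n ≠ 0 := by
    rintro rfl
    simp at hodd
  have hne : P.Nonempty := by
    rw [Finset.nonempty_iff_ne_empty]
    rintro rfl
    have := H 1
    rw [al_one] at this
    simp at this
  set D : ℤ := P.max' hne - P.min' hne with hDdef
  have hD : ∀ k ∈ P, ∀ l ∈ P, |k - l| ≤ D := by
    intro k hk l hl
    have h1 := P.le_max' k hk
    have h2 := P.min'_le k hk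
    have h3 := P.le_max' l hl
    have h4 := P.min'_le l hl
    rw [abs_le]
    constructor <;> omega
  have hD0 : 0 ≤ D := by
    have := hD _ (P.max'_mem hne) _ (P.max'_mem hne)
    simpa using this
  -- step 1
  have hex : ∃ m : ℤ, |m| ≤ D ∧ qq P m = 1 ∧ ∃ j : ℕ, n ∣ 2 ^ j - m := by
    have h1 := H 1
    rw [sum_eq_qq P D hD, al_one] at h1
    have h2 : ∃ m ∈ Finset.Icc (-D) D, qq P m * al (n * 1 + m) ≠ 0 := by
      by_contra hcon
      push Not at hcon
      rw [Finset.sum_eq_zero hcon] at h1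
      exact zero_ne_one h1
    obtain ⟨m, hm, hne2⟩ := h2
    have hz : ∀ z : ZMod 2, z ≠ 0 → z = 1 := by decide
    have hq : qq P m = 1 := hz _ (left_ne_zero_of_mul hne2)
    have ha : al (n * 1 + m) = 1 := hz _ (right_ne_zero_of_mul hne2)
    rw [al_eq_one_iff] at ha
    obtain ⟨j, hj⟩ := ha
    have hm1 := Finset.mem_Icc.1 hm
    have h3 : |n * 1 + m| = 2 ^ j := by
      rw [Int.abs_eq_natAbs, hj]; push_cast; rfl
    rcases abs_eq (by positivity : (0 : ℤ) ≤ 2 ^ j) |>.1 h3 with h4 | h4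
    · exact ⟨m, abs_le.2 hm1, hq, j, ⟨1, by rw [← h4]; ring⟩⟩
    · refine ⟨-m, ?_, ?_, j, ⟨-1, ?_⟩⟩
      · rw [abs_neg]; exact abs_le.2 hm1
      · rw [qq_neg]; exact hq
      · have : (2 : ℤ) ^ j = -(n * 1 + m) := by rw [h4]; ring
        rw [this]; ring
  obtain ⟨m, hm, hq, j, hdv⟩ := hex
  obtain ⟨J, hJ, hJd⟩ := exists_big n hodd j ((|n| + 4) * D + 2)
  have hdvd : n ∣ 2 ^ J - m := by
    have := dvd_add hJd hdv
    simpa using this
  obtain ⟨-, hn1⟩ := key P n D hD hn hodd H m hm hq J hJ hdvd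
  have hn2 : n = 1 ∨ n = -1 := by
    rcases abs_eq (by norm_num : (0 : ℤ) ≤ 1) |>.1 hn1 with h | h
    · exact Or.inl h
    · exact Or.inr h
  refine ⟨hn2, ?_⟩
  -- step 2
  obtain ⟨J2, hJ2, -⟩ := exists_big n hodd 0 ((|n| + 4) * D + 2)
  have hdvd2 : n ∣ 2 ^ J2 - D := by
    rcases hn2 with rfl | rfl
    · exact one_dvd _
    · exact ⟨-(2 ^ J2 - D), by ring⟩
  have hqD : qq P D = 1 := by
    unfold qq
    rw [Finset.sum_eq_single (P.max' hne)]
    · rw [Finset.sum_eq_single (P.min' hne)]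
      · simp [hDdef]
      · intro l hl hne3
        rw [if_neg]
        intro h
        apply hne3
        omega
      · intro h; exact absurd (P.min'_mem hne) h
    · intro k hk hne3
      apply Finset.sum_eq_zero
      intro l hl
      rw [if_neg]
      intro h
      apply hne3
      have h1 := P.le_max' k hk
      have h2 := P.min'_le l hl
      omega
    · intro h; exact absurd (P.max'_mem hne) h
  obtain ⟨hD1, -⟩ := key P n D hD hn hodd H D (by rw [abs_of_nonneg hD0]) hqD J2 hJ2 hdvd2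
  refine ⟨P.min' hne, ?_⟩
  ext k
  rw [Finset.mem_singleton]
  constructor
  · intro hk
    have h1 := P.le_max' k hk
    have h2 := P.min'_le k hk
    omega
  · intro hk
    rw [hk]; exact P.min'_mem hne

end Pool.Agent.CoHopf
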