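import Pool.Agent.CoHopf.Comb

set_option autoImplicit false

namespace Pool.Agent.CoHopf

noncomputable section

/-- The vector space with basis the integers over the field with two elements. -/
abbrev V : Type := ℤ →₀ ZMod 2

/-- One-sided version of `al`. -/
def ga (r : ℤ) : ZMod 2 := if 0 < r then al r else 0

theorem ga_add_neg (r : ℤ) : ga r + ga (-r) = al r := by
  unfold ga
  rcases lt_trichotomy r 0 with h | h | h
  · rw [if_neg (by omega), if_pos (by omega), al_neg, zero_add]
  · subst h; simp [al_zero]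
  · rw [if_pos h, if_neg (by omega), add_zero]

theorem ga_two_mul (r : ℤ) : ga (2 * r) = ga r := by
  unfold ga
  by_cases h : 0 < r
  · rw [if_pos h, if_pos (by omega), al_two_mul]
  · rw [if_neg h, if_neg (by omega)]

/-- Bilinear form attached to a function on the integers. -/
def bil (f : ℤ → ZMod 2) : V →ₗ[ZMod 2] V →ₗ[ZMod 2] ZMod 2 :=
  Finsupp.linearCombination (ZMod 2) fun i => Finsupp.linearCombination (ZMod 2) fun j => f (i - j)

theorem bil_single (f : ℤ → ZMod 2) (i j : ℤ) (a b : ZMod 2) :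
    bil f (Finsupp.single i a) (Finsupp.single j b) = a * (b * f (i - j)) := by
  simp [bil, Finsupp.linearCombination_single]

/-- Bilinear extensionality. -/
theorem bil_ext {f g : V →ₗ[ZMod 2] V →ₗ[ZMod 2] ZMod 2}
    (h : ∀ i j : ℤ, f (Finsupp.single i 1) (Finsupp.single j 1) =
      g (Finsupp.single i 1) (Finsupp.single j 1)) : f = g := by
  apply Finsupp.lhom_ext'
  intro i
  apply LinearMap.ext_ring
  apply Finsupp.lhom_ext'
  intro j
  apply LinearMap.ext_ring
  simpa using h i j

/-- Shift. -/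
def sh (n : ℤ) : V →ₗ[ZMod 2] V := Finsupp.lmapDomain (ZMod 2) (ZMod 2) (fun i => i + n)

theorem sh_single (n i : ℤ) (a : ZMod 2) : sh n (Finsupp.single i a) = Finsupp.single (i + n) a := by
  simp [sh, Finsupp.lmapDomain_apply, Finsupp.mapDomain_single]

theorem lin_ext {M : Type} [AddCommMonoid M] [Module (ZMod 2) M] {f g : V →ₗ[ZMod 2] M}
    (h : ∀ i : ℤ, f (Finsupp.single i 1) = g (Finsupp.single i 1)) : f = g := by
  apply Finsupp.lhom_ext'
  intro i
  apply LinearMap.ext_ring
  simpa using h i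

theorem sh_add (n m : ℤ) (v : V) : sh (n + m) v = sh n (sh m v) := by
  have : sh (n + m) = (sh n).comp (sh m) := by
    apply lin_ext
    intro i
    rw [LinearMap.comp_apply, sh_single, sh_single, sh_single]
    congr 1; ring
  rw [this]; rfl

theorem sh_zero (v : V) : sh 0 v = v := by
  have : sh 0 = LinearMap.id := by
    apply lin_ext
    intro i
    rw [sh_single, add_zero]; rfl
  rw [this]; rfl

/-- Doubling of indices. -/
def db : V →ₗ[ZMod 2] V := Finsupp.lmapDomain (ZMod 2) (ZMod 2) (fun i => 2 * i)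

theorem db_single (i : ℤ) (a : ZMod 2) : db (Finsupp.single i a) = Finsupp.single (2 * i) a := by
  simp [db, Finsupp.lmapDomain_apply, Finsupp.mapDomain_single]

theorem db_injective : Function.Injective db := by
  have h : Function.Injective (fun i : ℤ => 2 * i) := by
    intro a b hab
    have hab' : 2 * a = 2 * b := hab
    omega
  intro v w hvw
  exact Finsupp.mapDomain_injective h hvw

theorem db_sh (n : ℤ) (v : V) : db (sh n v) = sh (2 * n) (db v) := by
  have : db.comp (sh n) = (sh (2 * n)).comp db := by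
    apply lin_ext
    intro i
    rw [LinearMap.comp_apply, LinearMap.comp_apply, sh_single, db_single, db_single, sh_single]
    congr 1; ring
  exact congrArg (fun F : V →ₗ[ZMod 2] V => F v) this

/-- The cocycle. -/
def be : V →ₗ[ZMod 2] V →ₗ[ZMod 2] ZMod 2 := bil ga

theorem be_sh (n : ℤ) (v w : V) : be (sh n v) (sh n w) = be v w := by
  have : (be.comp (sh n)).compl₂ (sh n) = be := by
    apply bil_ext
    intro i j
    rw [LinearMap.compl₂_apply, LinearMap.comp_apply, sh_single, sh_single]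
    unfold be
    rw [bil_single, bil_single]
    congr 3
    ring
  exact congrArg (fun F : V →ₗ[ZMod 2] V →ₗ[ZMod 2] ZMod 2 => F v w) this

theorem be_db (v w : V) : be (db v) (db w) = be v w := by
  have : (be.comp db).compl₂ db = be := by
    apply bil_ext
    intro i j
    rw [LinearMap.compl₂_apply, LinearMap.comp_apply, db_single, db_single]
    unfold be
    rw [bil_single, bil_single]
    have : 2 * i - 2 * j = 2 * (i - j) := by ring
    rw [this, ga_two_mul]
  exact congrArg (fun F : V →ₗ[ZMod 2] V →ₗ[ZMod 2] ZMod 2 => F v w) this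

theorem be_add_flip (v w : V) : be v w + be w v = bil al v w := by
  have : be + be.flip = bil al := by
    apply bil_ext
    intro i j
    rw [LinearMap.add_apply, LinearMap.add_apply, LinearMap.flip_apply]
    unfold be
    rw [bil_single, bil_single, bil_single]
    simp only [one_mul]
    have : j - i = -(i - j) := by ring
    rw [this, ga_add_neg]
  have h2 := congrArg (fun F : V →ₗ[ZMod 2] V →ₗ[ZMod 2] ZMod 2 => F v w) this
  simpa using h2

theorem zmod2_cases (z : ZMod 2) : z = 0 ∨ z = 1 := by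
  revert z; decide

theorem zmod2_add_self (z : ZMod 2) : z + z = 0 := by
  revert z; decide

theorem V_add_self (v : V) : v + v = 0 := by
  ext i
  simp [zmod2_add_self]

theorem eq_sum_single (v : V) : v = ∑ i ∈ v.support, Finsupp.single i (1 : ZMod 2) := by
  conv_lhs => rw [← Finsupp.sum_single v]
  unfold Finsupp.sum
  refine Finset.sum_congr rfl fun i hi => ?_
  have : v i = 1 := by
    rcases zmod2_cases (v i) with h | h
    · exact absurd h (Finsupp.mem_support_iff.1 hi)
    · exact h
  rw [this]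

theorem bil_eq_sum (f : ℤ → ZMod 2) (v : V) (m : ℤ) :
    bil f (sh m v) v = ∑ k ∈ v.support, ∑ l ∈ v.support, f (m + k - l) := by
  have h := eq_sum_single v
  conv_lhs => rw [h]
  simp only [map_sum, LinearMap.sum_apply, sh_single, bil_single, one_mul]
  rw [Finset.sum_comm]
  refine Finset.sum_congr rfl fun k _ => Finset.sum_congr rfl fun l _ => ?_
  congr 1
  ring

/-- The group `B`. -/
@[ext] structure B where
  v : V
  x : ZMod 2
  n : ℤ

namespace B

instance : Mul B := ⟨fun p q => ⟨p.v + sh p.n q.v, p.x + q.x + be p.v (sh p.n q.v), p.n + q.n⟩⟩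
instance : One B := ⟨⟨0, 0, 0⟩⟩
instance : Inv B := ⟨fun p => ⟨-sh (-p.n) p.v, -p.x + be p.v p.v, -p.n⟩⟩

theorem mul_def (p q : B) :
    p * q = ⟨p.v + sh p.n q.v, p.x + q.x + be p.v (sh p.n q.v), p.n + q.n⟩ := rfl
theorem one_def : (1 : B) = ⟨0, 0, 0⟩ := rfl
theorem inv_def (p : B) : p⁻¹ = ⟨-sh (-p.n) p.v, -p.x + be p.v p.v, -p.n⟩ := rfl

instance : Group B := Group.ofLeftAxioms
  (by
    intro p q r
    simp only [mul_def]
    ext1
    · simp only [map_add, sh_add]
      abel
    · simp only [map_add, sh_add, LinearMap.add_apply, be_sh]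
      abel
    · exact add_assoc _ _ _)
  (by
    intro p
    simp only [mul_def, one_def]
    ext1
    · simp [sh_zero]
    · simp
    · simp)
  (by
    intro p
    simp only [mul_def, one_def, inv_def]
    ext1
    · simp
    · simp only [map_neg, LinearMap.neg_apply]
      rw [be_sh]
      ring
    · simp)

/-- Degree hom. -/
theorem mul_n (p q : B) : (p * q).n = p.n + q.n := rfl
theorem one_n : (1 : B).n = 0 := rfl
theorem inv_n (p : B) : (p⁻¹).n = -p.n := rfl

def degHom : B →* Multiplicative ℤ where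
  toFun p := Multiplicative.ofAdd p.n
  map_one' := rfl
  map_mul' _ _ := rfl

theorem zpow_n (p : B) (k : ℤ) : (p ^ k).n = k * p.n := by
  have h : degHom (p ^ k) = degHom p ^ k := map_zpow _ _ _
  have h2 := congrArg Multiplicative.toAdd h
  simpa [degHom] using h2

theorem pow_n (p : B) (k : ℕ) : (p ^ k).n = k * p.n := by
  have h := zpow_n p k
  simpa using h

theorem pow_four (p : B) (h : p.n = 0) : p ^ 4 = 1 := by
  have h2 : p * p = ⟨0, be p.v p.v, 0⟩ := by
    rw [mul_def]
    ext1
    · simp only [h, sh_zero, V_add_self]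
    · simp only [h, sh_zero, zmod2_add_self, zero_add]
    · simp only [h, add_zero]
  have h3 : p ^ 4 = (p * p) * (p * p) := by
    simp only [pow_succ, pow_zero, one_mul, mul_assoc]
  rw [h3, h2, mul_def, one_def]
  ext1
  · simp
  · simp [zmod2_add_self]
  · simp

theorem eq_one_of_cube (p : B) (h : p ^ 3 = 1) : p = 1 := by
  have h1 := pow_n p 3
  rw [h, one_n] at h1
  have h2 : p.n = 0 := by
    push_cast at h1
    omega
  have h3 := pow_four p h2
  rw [pow_succ, h, one_mul] at h3
  exact h3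

/-- central elements -/
def z (x : ZMod 2) : B := ⟨0, x, 0⟩
/-- generators -/
def A (i : ℤ) : B := ⟨Finsupp.single i 1, 0, 0⟩
/-- powers of the stable letter -/
def tt (k : ℤ) : B := ⟨0, 0, k⟩

theorem z_zero : z 0 = 1 := rfl

theorem z_mul (x : ZMod 2) (p : B) : z x * p = ⟨p.v, x + p.x, p.n⟩ := by
  unfold z
  rw [mul_def]
  ext1
  · simp [sh_zero]
  · simp
  · simp

theorem z_inj {x y : ZMod 2} {p : B} (h : z x * p = z y * p) : x = y := by
  have h1 := mul_right_cancel h
  exact congrArg B.x h1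

theorem tt_mul (k : ℤ) (p : B) : tt k * p = ⟨sh k p.v, p.x, k + p.n⟩ := by
  unfold tt
  rw [mul_def]
  ext1
  · simp
  · simp
  · simp

def ttHom : Multiplicative ℤ →* B where
  toFun k := tt (Multiplicative.toAdd k)
  map_one' := rfl
  map_mul' a b := by
    rw [tt_mul]
    simp [tt]

theorem tt_eq_zpow (k : ℤ) : tt k = (tt 1) ^ k := by
  have h : ttHom (Multiplicative.ofAdd (1 : ℤ) ^ k) = ttHom (Multiplicative.ofAdd 1) ^ k :=
    map_zpow _ _ _
  have h2 : (Multiplicative.ofAdd (1 : ℤ)) ^ k = Multiplicative.ofAdd k := by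
    rw [← ofAdd_zsmul]; simp
  rw [h2] at h
  exact h

theorem tt_inv (k : ℤ) : (tt k)⁻¹ = tt (-k) := by
  rw [tt_eq_zpow (-k), tt_eq_zpow k, zpow_neg]

theorem conj_v (b p : B) (hp : p.n = 0) : (b * p * b⁻¹).v = sh b.n p.v := by
  rw [mul_def, mul_def, inv_def]
  simp only [hp, add_zero, map_neg]
  rw [← sh_add]
  simp only [add_neg_cancel, sh_zero]
  abel

theorem conj_n (b p : B) (hp : p.n = 0) : (b * p * b⁻¹).n = 0 := by
  rw [mul_n, mul_n, inv_n, hp]; ring

theorem A_eq (i : ℤ) : A i = tt i * A 0 * (tt i)⁻¹ := by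
  rw [tt_inv, tt_mul, mul_def]
  unfold A tt
  ext1
  · simp [sh_single]
  · simp
  · simp

theorem comm_eq (p q : B) (hp : p.n = 0) (hq : q.n = 0) :
    p * q = z (bil al p.v q.v) * (q * p) := by
  rw [z_mul, mul_def, mul_def, hp, hq]
  ext1
  · simp only [sh_zero]; abel
  · simp only [sh_zero]
    rw [← be_add_flip]
    have h : be q.v p.v + be q.v p.v = 0 := zmod2_add_self _
    calc p.x + q.x + be p.v q.v = p.x + q.x + be p.v q.v + 0 := by ring
      _ = p.x + q.x + be p.v q.v + (be q.v p.v + be q.v p.v) := by rw [h]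
      _ = _ := by ring
  · rfl

theorem A_comm (i : ℤ) : A i * A 0 = z (al i) * (A 0 * A i) := by
  have h := comm_eq (A i) (A 0) rfl rfl
  have h2 : bil al (A i).v (A 0).v = al i := by
    unfold A
    rw [bil_single]
    simp
  rw [h2] at h
  exact h

/-- Every injective endomorphism of `B` sending `t` to an element of odd degree is surjective. -/
theorem surj_of_odd (Ψ : B →* B) (hinj : Function.Injective Ψ) (hodd : Odd (Ψ (tt 1)).n) :
    Function.Surjective Ψ := by
  have h0 : (Ψ (A 0)).n = 0 := by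
    have h1 : (A 0) ^ 4 = 1 := pow_four _ rfl
    have h2 : (Ψ (A 0)) ^ 4 = 1 := by rw [← map_pow, h1, map_one]
    have h3 := pow_n (Ψ (A 0)) 4
    rw [h2, one_n] at h3
    push_cast at h3
    omega
  have htt : ∀ i : ℤ, (Ψ (tt i)).n = i * (Ψ (tt 1)).n := by
    intro i
    rw [tt_eq_zpow i, map_zpow, zpow_n]
  have hA : ∀ i : ℤ, Ψ (A i) = Ψ (tt i) * Ψ (A 0) * (Ψ (tt i))⁻¹ := by
    intro i
    rw [A_eq i, map_mul, map_mul, map_inv]
  have hAv : ∀ i : ℤ, (Ψ (A i)).v = sh (i * (Ψ (tt 1)).n) (Ψ (A 0)).v := by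
    intro i
    rw [hA i, conj_v _ _ h0, htt]
  have hAn : ∀ i : ℤ, (Ψ (A i)).n = 0 := by
    intro i
    rw [hA i, conj_n _ _ h0]
  have hcom : ∀ i : ℤ, Ψ (z (al i)) = z (bil al (Ψ (A i)).v (Ψ (A 0)).v) := by
    intro i
    have h1 := congrArg Ψ (A_comm i)
    rw [map_mul, map_mul, map_mul, comm_eq _ _ (hAn i) h0] at h1
    exact (mul_right_cancel h1).symm
  have hz1 : Ψ (z 1) = z 1 := by
    have h1 := hcom 1
    rw [al_one] at h1
    rcases zmod2_cases (bil al (Ψ (A 1)).v (Ψ (A 0)).v) with h2 | h2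
    · exfalso
      rw [h2, z_zero] at h1
      have h3 : z 1 = 1 := hinj (by rw [h1, map_one])
      have h4 := congrArg B.x h3
      exact one_ne_zero h4
    · rw [h1, h2]
  have hz : ∀ x : ZMod 2, Ψ (z x) = z x := by
    intro x
    rcases zmod2_cases x with rfl | rfl
    · rw [z_zero, map_one]
    · exact hz1
  have hal : ∀ i : ℤ, ∑ k ∈ (Ψ (A 0)).v.support, ∑ l ∈ (Ψ (A 0)).v.support,
      al ((Ψ (tt 1)).n * i + k - l) = al i := by
    intro i
    have h1 := hcom i
    rw [hz, hAv i, bil_eq_sum] at h1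
    have h2 := congrArg B.x h1
    rw [mul_comm]
    exact h2.symm
  obtain ⟨hn, k, hk⟩ := comb _ _ hodd hal
  have hP : (Ψ (A 0)).v = Finsupp.single k 1 := by
    rw [eq_sum_single (Ψ (A 0)).v, hk, Finset.sum_singleton]
  -- the range
  have hr1 : ∀ x : ZMod 2, z x ∈ Ψ.range := fun x => ⟨z x, hz x⟩
  have hmk : ∀ (v : V) (x y : ZMod 2), (⟨v, x, 0⟩ : B) = z (x + y) * ⟨v, y, 0⟩ := by
    intro v x y
    rw [z_mul]
    ext1
    · rfl
    · show x = x + y + y
      rw [add_assoc, zmod2_add_self, add_zero]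
    · rfl
  have hr2 : ∀ (j : ℤ) (x : ZMod 2), (⟨Finsupp.single j 1, x, 0⟩ : B) ∈ Ψ.range := by
    intro j x
    have h1 : ∃ i : ℤ, k + i * (Ψ (tt 1)).n = j := by
      rcases hn with h | h
      · exact ⟨j - k, by rw [h]; ring⟩
      · exact ⟨k - j, by rw [h]; ring⟩
    obtain ⟨i, hi⟩ := h1
    have h2 : Ψ (A i) = ⟨Finsupp.single j 1, (Ψ (A i)).x, 0⟩ := by
      ext1
      · rw [hAv i, hP, sh_single, hi]
      · rfl
      · exact hAn i
    have h3 : (⟨Finsupp.single j 1, (Ψ (A i)).x, 0⟩ : B) ∈ Ψ.range := ⟨A i, h2⟩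
    rw [hmk _ x (Ψ (A i)).x]
    exact Subgroup.mul_mem _ (hr1 _) h3
  have hr3 : ∀ v : V, ∀ x : ZMod 2, (⟨v, x, 0⟩ : B) ∈ Ψ.range := by
    intro v
    induction v using Finsupp.induction with
    | zero => exact fun x => hr1 x
    | single_add j b w _ hb ih =>
      intro x
      have hb1 : b = 1 := by
        rcases zmod2_cases b with h | h
        · exact absurd h hb
        · exact h
      subst hb1
      have h4 : (⟨Finsupp.single j 1 + w, x, 0⟩ : B) =
          ⟨Finsupp.single j 1, 0, 0⟩ * ⟨w, x - be (Finsupp.single j 1) w, 0⟩ := by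
        rw [mul_def]
        ext1
        · simp [sh_zero]
        · simp [sh_zero]
        · simp
      rw [h4]
      exact Subgroup.mul_mem _ (hr2 j 0) (ih _)
  have hr4 : tt 1 ∈ Ψ.range := by
    have h1 : Ψ (tt 1) = ⟨(Ψ (tt 1)).v, (Ψ (tt 1)).x, 0⟩ * tt (Ψ (tt 1)).n := by
      rw [mul_def]
      unfold tt
      ext1
      · simp
      · simp
      · simp
    have h2 : tt (Ψ (tt 1)).n ∈ Ψ.range := by
      have h3 : tt (Ψ (tt 1)).n = (⟨(Ψ (tt 1)).v, (Ψ (tt 1)).x, 0⟩ : B)⁻¹ * Ψ (tt 1) := by
        rw [eq_inv_mul_iff_mul_eq]; exact h1.symm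
      rw [h3]
      exact Subgroup.mul_mem _ (Subgroup.inv_mem _ (hr3 _ _)) ⟨tt 1, rfl⟩
    rcases hn with h | h
    · rw [h] at h2; exact h2
    · rw [h] at h2
      have h5 := Subgroup.inv_mem _ h2
      rw [tt_inv, neg_neg] at h5
      exact h5
  intro b
  have h1 : b = ⟨b.v, b.x, 0⟩ * tt b.n := by
    rw [mul_def]
    unfold tt
    ext1
    · simp
    · simp
    · simp
  have h2 : b ∈ Ψ.range := by
    rw [h1, tt_eq_zpow]
    exact Subgroup.mul_mem _ (hr3 _ _) (Subgroup.zpow_mem _ hr4 _)
  exact h2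

/-- The non-surjective injective endomorphism. -/
def kap : B →* B where
  toFun p := ⟨db p.v, p.x, 2 * p.n⟩
  map_one' := by rw [one_def]; simp
  map_mul' p q := by
    simp only [mul_def]
    ext1
    · simp only [map_add, db_sh]
    · rw [← db_sh, be_db]
    · show 2 * (p.n + q.n) = 2 * p.n + 2 * q.n
      ring

theorem kap_injective : Function.Injective kap := by
  intro p q h
  have h1 := congrArg B.v h
  have h2 := congrArg B.x h
  have h3 := congrArg B.n h
  ext1
  · exact db_injective h1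
  · exact h2
  · have h3' : 2 * p.n = 2 * q.n := h3
    omega

theorem kap_not_surj (p : B) : kap p ≠ tt 1 := by
  intro h
  have h1 := congrArg B.n h
  have h2 : 2 * p.n = 1 := h1
  omega

end B

end

end Pool.Agent.CoHopf
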