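import Pool.Agent.CoHopf.Group

/-!
# The pair of groups `TT < GG` (copied from Pool/Agent/S03388.lean for the own statement)
-/

set_option autoImplicit false

namespace Pool.Agent.CoHopf.Ins

open Pool.Agent.CoHopf

noncomputable section

abbrev S3 : Type := Equiv.Perm (Fin 3)
abbrev GG : Type := S3 × B

/-- parity of the degree as a sign -/
def par : B →* ℤˣ where
  toFun b := (-1) ^ b.n
  map_one' := by rw [B.one_n, zpow_zero]
  map_mul' p q := by rw [B.mul_n, zpow_add]

theorem par_apply (b : B) : par b = (-1) ^ b.n := rfl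

theorem par_eq_one (b : B) (h : b.n = 0) : par b = 1 := by
  rw [par_apply, h, zpow_zero]

theorem par_odd (b : B) : Odd b.n ↔ par b = -1 := by
  rw [par_apply]
  constructor
  · intro h
    exact Odd.neg_one_zpow h
  · intro h
    by_contra hcon
    rw [Int.not_odd_iff_even] at hcon
    rw [Even.neg_one_zpow hcon] at h
    exact absurd h (by decide)

def chi : GG →* ℤˣ where
  toFun g := Equiv.Perm.sign g.1 * par g.2
  map_one' := by simp
  map_mul' g h := by
    simp only [Prod.fst_mul, Prod.snd_mul, map_mul]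
    rw [mul_mul_mul_comm]

theorem chi_apply (g : GG) : chi g = Equiv.Perm.sign g.1 * par g.2 := rfl

/-- The subgroup of index two. -/
def TT : Subgroup GG := chi.ker

theorem mem_TT (g : GG) : g ∈ TT ↔ Equiv.Perm.sign g.1 = par g.2 := by
  unfold TT
  rw [MonoidHom.mem_ker, chi_apply]
  rcases Int.units_eq_one_or (Equiv.Perm.sign g.1) with h | h <;>
    rcases Int.units_eq_one_or (par g.2) with h2 | h2 <;> rw [h, h2] <;> decide

theorem not_mem_TT (g : GG) : g ∉ TT ↔ chi g = -1 := by
  unfold TT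
  rw [MonoidHom.mem_ker]
  rcases Int.units_eq_one_or (chi g) with h | h <;> rw [h] <;> decide

theorem inv_mul_mem {g h : GG} (hg : g ∉ TT) (hh : h ∉ TT) : g⁻¹ * h ∈ TT := by
  rw [not_mem_TT] at hg hh
  unfold TT
  rw [MonoidHom.mem_ker, map_mul, map_inv, hg, hh]
  decide

theorem mul_inv_mem {g h : GG} (hg : g ∉ TT) (hh : h ∉ TT) : g * h⁻¹ ∈ TT := by
  rw [not_mem_TT] at hg hh
  unfold TT
  rw [MonoidHom.mem_ker, map_mul, map_inv, hg, hh]
  decide

theorem mul_not_mem {g t : GG} (hg : g ∉ TT) (ht : t ∈ TT) : g * t ∉ TT := by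
  intro h
  apply hg
  have := TT.mul_mem h (TT.inv_mem ht)
  simpa using this

def rho : S3 := finRotate 3
def tau : S3 := Equiv.swap 0 1

theorem fact1 : ∀ s : S3, s ^ 3 = 1 → Equiv.Perm.sign s = 1 := by decide
theorem fact2 : rho ^ 3 = 1 := by decide
theorem fact3 : rho ≠ 1 := by decide
theorem fact4 : tau * tau = 1 := by decide
theorem fact5 : tau * rho = rho⁻¹ * tau := by decide
/-- commuting with a nontrivial element of order three -/
theorem fact6 : ∀ r : S3, r ≠ 1 → r ^ 3 = 1 → ∀ s : S3, s * r = r * s → Equiv.Perm.sign s = 1 := by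
  decide
theorem fact7 : ∀ r : S3, r ≠ 1 → r ^ 3 = 1 → ∀ s : S3, s * r = r⁻¹ * s →
    Equiv.Perm.sign s = -1 := by
  decide
theorem fact8 : ∀ r : S3, r ≠ 1 → r ^ 3 = 1 → ∀ s : S3, Equiv.Perm.sign s = 1 →
    s = 1 ∨ s = r ∨ s = r ^ 2 := by
  decide
theorem fact9 : Equiv.Perm.sign tau = -1 := by decide
theorem fact10 : Equiv.Perm.sign rho = 1 := by decide
theorem fact11 : ∀ s : S3, Equiv.Perm.sign s = 1 → s ^ 3 = 1 := by decide

/-- Section of the projection to `B`. -/
def sec : B →* GG where
  toFun b := (tau ^ b.n, b)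
  map_one' := by rw [B.one_n, zpow_zero]; rfl
  map_mul' p q := by rw [B.mul_n, zpow_add]; rfl

theorem sec_mem (b : B) : sec b ∈ TT := by
  rw [mem_TT]
  show Equiv.Perm.sign (tau ^ b.n) = (-1) ^ b.n
  rw [map_zpow, fact9]

def secT : B →* TT := sec.codRestrict TT sec_mem

theorem secT_coe (b : B) : ((secT b : TT) : GG) = (tau ^ b.n, b) := rfl

def vv : TT := ⟨(rho, 1), by
  rw [mem_TT]
  show Equiv.Perm.sign rho = par 1
  rw [fact10, map_one]⟩

theorem vv_cube : vv ^ 3 = 1 := by
  apply Subtype.ext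
  show ((rho, (1 : B)) : GG) ^ 3 = 1
  rw [Prod.pow_mk, fact2, one_pow]
  rfl

theorem vv_ne : vv ≠ 1 := by
  intro h
  have h2 := congrArg (fun g : TT => (g : GG).1) h
  exact fact3 h2

theorem cohopf (f : TT →* TT) (hf : Function.Injective f) : Function.Surjective f := by
  set r : S3 := ((f vv : TT) : GG).1 with hr
  have hv3 : (f vv) ^ 3 = 1 := by rw [← map_pow, vv_cube, map_one]
  have hv3' : ((f vv : TT) : GG) ^ 3 = 1 := by
    have := congrArg (fun g : TT => (g : GG)) hv3
    exact this
  have hvb : ((f vv : TT) : GG).2 = 1 := by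
    apply B.eq_one_of_cube
    have := congrArg Prod.snd hv3'
    simpa using this
  have hr3 : r ^ 3 = 1 := by
    have := congrArg Prod.fst hv3'
    simpa using this
  have hr1 : r ≠ 1 := by
    intro h
    apply vv_ne
    apply hf
    rw [map_one]
    apply Subtype.ext
    apply Prod.ext
    · exact h
    · exact hvb
  let Φ : B →* B := (MonoidHom.snd S3 B).comp (TT.subtype.comp (f.comp secT))
  have hΦ : ∀ b, Φ b = ((f (secT b) : TT) : GG).2 := fun b => rfl
  have hΦinj : Function.Injective Φ := by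
    rw [injective_iff_map_eq_one]
    intro b hb
    have h1 := (mem_TT _).1 (f (secT b)).2
    rw [← hΦ, hb, map_one] at h1
    have h2 := fact11 _ h1
    have h3 : (f (secT b)) ^ 3 = 1 := by
      apply Subtype.ext
      apply Prod.ext
      · simpa using h2
      · have : ((f (secT b) : TT) : GG).2 = 1 := by rw [← hΦ, hb]
        simp [this]
    rw [← map_pow, ← map_one f] at h3
    have h4 := hf h3
    have h5 := congrArg (fun g : TT => (g : GG).2) h4
    have h6 : b ^ 3 = 1 := by simpa [secT_coe] using h5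
    exact B.eq_one_of_cube b h6
  have hodd : Odd (Φ (B.tt 1)).n := by
    rw [par_odd]
    have h1 : secT (B.tt 1) * vv = vv⁻¹ * secT (B.tt 1) := by
      apply Subtype.ext
      apply Prod.ext
      · show tau ^ (B.tt 1).n * rho = rho⁻¹ * tau ^ (B.tt 1).n
        have : (B.tt 1).n = 1 := rfl
        rw [this, zpow_one, fact5]
      · show B.tt 1 * 1 = 1⁻¹ * B.tt 1
        simp
    have h2 := congrArg f h1
    rw [map_mul, map_mul, map_inv] at h2
    have h3 := congrArg (fun g : TT => (g : GG).1) h2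
    have h4 : ((f (secT (B.tt 1)) : TT) : GG).1 * r = r⁻¹ * ((f (secT (B.tt 1)) : TT) : GG).1 := h3
    have h5 := fact7 r hr1 hr3 _ h4
    have h6 := (mem_TT _).1 (f (secT (B.tt 1))).2
    rw [h5] at h6
    rw [hΦ]
    exact h6.symm
  have hsurj := B.surj_of_odd Φ hΦinj hodd
  intro y
  obtain ⟨b0, hb0⟩ := hsurj (y : GG).2
  rw [hΦ] at hb0
  have h1 := (mem_TT _).1 (f (secT b0)).2
  have h2 := (mem_TT _).1 y.2
  rw [hb0, ← h2] at h1
  have h3 : Equiv.Perm.sign ((((f (secT b0) : TT) : GG).1)⁻¹ * (y : GG).1) = 1 := by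
    rw [map_mul, map_inv, h1]
    simp
  have hfin : ∀ k : ℕ, (((f (secT b0) : TT) : GG).1)⁻¹ * (y : GG).1 = r ^ k →
      f (secT b0 * vv ^ k) = y := by
    intro k hk
    rw [map_mul, map_pow]
    apply Subtype.ext
    apply Prod.ext
    · show ((f (secT b0) : TT) : GG).1 * (((f vv ^ k : TT) : GG).1) = (y : GG).1
      have h4 : (((f vv ^ k : TT) : GG).1) = r ^ k := by simp [hr]
      rw [h4, ← hk]
      simp
    · show ((f (secT b0) : TT) : GG).2 * (((f vv ^ k : TT) : GG).2) = (y : GG).2
      have h4 : (((f vv ^ k : TT) : GG).2) = 1 := by simp [hvb]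
      rw [h4, hb0, mul_one]
  rcases fact8 r hr1 hr3 _ h3 with h | h | h
  · exact ⟨_, hfin 0 (by rw [h, pow_zero])⟩
  · exact ⟨_, hfin 1 (by rw [h, pow_one])⟩
  · exact ⟨_, hfin 2 h⟩

/-- The generating set. -/
def gg : GG := (tau, B.tt 1)

open Classical in
def gens : Finset GG := {(rho, 1), gg, gg⁻¹, (1, B.A 0)}

theorem gens_mem_TT : ∀ x ∈ gens, x ∈ TT := by
  have hg : gg ∈ TT := by
    have := sec_mem (B.tt 1)
    have h2 : sec (B.tt 1) = gg := by
      show (tau ^ (1 : ℤ), B.tt 1) = (tau, B.tt 1)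
      rw [zpow_one]
    rwa [h2] at this
  intro x hx
  simp only [gens, Finset.mem_insert, Finset.mem_singleton] at hx
  rcases hx with rfl | rfl | rfl | rfl
  · exact vv.2
  · exact hg
  · exact TT.inv_mem hg
  · rw [mem_TT]
    show Equiv.Perm.sign (1 : S3) = par (B.A 0)
    rw [par_eq_one _ rfl]
    simp

theorem closure_gens : Subsemigroup.closure (gens : Set GG) = TT.toSubmonoid.toSubsemigroup := by
  apply le_antisymm
  · rw [Subsemigroup.closure_le]
    intro x hx
    exact gens_mem_TT x hx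
  · set H := Subsemigroup.closure (gens : Set GG) with hH
    have hsub : ∀ x ∈ gens, x ∈ H := fun x hx => Subsemigroup.subset_closure hx
    have hrho : ((rho, 1) : GG) ∈ H := hsub _ (by simp [gens])
    have hg1 : gg ∈ H := hsub _ (by simp [gens])
    have hg2 : gg⁻¹ ∈ H := hsub _ (by simp [gens])
    have hA0 : ((1, B.A 0) : GG) ∈ H := hsub _ (by simp [gens])
    have hone : (1 : GG) ∈ H := by
      have h := H.mul_mem (H.mul_mem hrho hrho) hrho
      have h2 : ((rho, 1) : GG) * (rho, 1) * (rho, 1) = 1 := by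
        apply Prod.ext
        · show rho * rho * rho = 1
          have := fact2
          rwa [pow_succ, sq] at this
        · show (1 : B) * 1 * 1 = 1
          simp
      rwa [h2] at h
    let M : Submonoid GG := { H with one_mem' := hone }
    have hM : ∀ x, x ∈ M ↔ x ∈ H := fun x => Iff.rfl
    have hgz : ∀ k : ℤ, gg ^ k ∈ M := by
      intro k
      rcases Int.eq_nat_or_neg k with ⟨m, rfl | rfl⟩
      · rw [zpow_natCast]
        exact M.pow_mem hg1 m
      · rw [zpow_neg, zpow_natCast, ← inv_pow]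
        exact M.pow_mem hg2 m
    have hgz_eq : ∀ k : ℤ, gg ^ k = (tau ^ k, B.tt k) := by
      intro k
      apply Prod.ext
      · simp [gg]
      · show ((gg ^ k).2) = B.tt k
        rw [B.tt_eq_zpow]
        simp [gg]
    let N : Submonoid B := M.comap (MonoidHom.inr S3 B)
    have hN : ∀ b, b ∈ N ↔ ((1, b) : GG) ∈ M := fun b => Iff.rfl
    have hAN : ∀ i : ℤ, B.A i ∈ N := by
      intro i
      rw [hN]
      have h1 : ((1, B.A i) : GG) = gg ^ i * (1, B.A 0) * gg ^ (-i) := by
        rw [hgz_eq, hgz_eq]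
        apply Prod.ext
        · show 1 = tau ^ i * 1 * tau ^ (-i)
          simp
        · show B.A i = B.tt i * B.A 0 * B.tt (-i)
          rw [B.A_eq i, B.tt_inv]
      rw [h1]
      exact M.mul_mem (M.mul_mem (hgz i) hA0) (hgz (-i))
    have hAA : ∀ i : ℤ, B.A i * B.A i = 1 := by
      intro i
      rw [B.mul_def, B.one_def]
      unfold B.A
      ext1
      · simp only [sh_zero, V_add_self]
      · simp only [sh_zero]
        unfold be
        rw [bil_single]
        simp [ga]
      · simp
    have hz1 : B.z 1 ∈ N := by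
      have h1 := B.A_comm 1
      rw [al_one] at h1
      have h2 : B.z 1 = B.A 1 * B.A 0 * (B.A 1 * B.A 0) := by
        rw [h1]
        have h3 : B.z 1 * (B.A 0 * B.A 1) * (B.z 1 * (B.A 0 * B.A 1)) =
            B.A 1 * B.A 0 * (B.A 1 * B.A 0) := by rw [h1]
        have h4 : B.z 1 * (B.A 0 * B.A 1) * (B.A 1 * B.A 0) = B.z 1 := by
          calc B.z 1 * (B.A 0 * B.A 1) * (B.A 1 * B.A 0)
              = B.z 1 * (B.A 0 * (B.A 1 * B.A 1) * B.A 0) := by simp only [mul_assoc]
            _ = B.z 1 := by rw [hAA, mul_one, hAA, mul_one]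
        rw [← h1]
        rw [← h1] at h4
        exact h4.symm
      rw [h2]
      exact N.mul_mem (N.mul_mem (hAN 1) (hAN 0)) (N.mul_mem (hAN 1) (hAN 0))
    have hzN : ∀ x : ZMod 2, B.z x ∈ N := by
      intro x
      rcases zmod2_cases x with rfl | rfl
      · exact N.one_mem
      · exact hz1
    have hvN : ∀ v : V, ∀ x : ZMod 2, (⟨v, x, 0⟩ : B) ∈ N := by
      intro v
      induction v using Finsupp.induction with
      | zero => exact fun x => hzN x
      | single_add j b w _ hb ih =>
        intro x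
        have hb1 : b = 1 := by
          rcases zmod2_cases b with h | h
          · exact absurd h hb
          · exact h
        subst hb1
        have h4 : (⟨Finsupp.single j 1 + w, x, 0⟩ : B) =
            B.A j * ⟨w, x - be (Finsupp.single j 1) w, 0⟩ := by
          rw [B.mul_def]
          unfold B.A
          ext1
          · simp [sh_zero]
          · simp [sh_zero]
          · simp
        rw [h4]
        exact N.mul_mem (hAN j) (ih _)
    intro x hx
    rw [← hM]
    have hx' : x ∈ TT := hx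
    rw [mem_TT] at hx'
    have h1 : x = (1, (⟨x.2.v, x.2.x, 0⟩ : B)) * (x.1 * tau ^ (-x.2.n), 1) * gg ^ x.2.n := by
      rw [hgz_eq]
      apply Prod.ext
      · show x.1 = 1 * (x.1 * tau ^ (-x.2.n)) * tau ^ x.2.n
        simp
      · show x.2 = (⟨x.2.v, x.2.x, 0⟩ : B) * 1 * B.tt x.2.n
        rw [mul_one, B.mul_def]
        unfold B.tt
        ext1
        · simp
        · simp
        · simp
    have h2 : Equiv.Perm.sign (x.1 * tau ^ (-x.2.n)) = 1 := by
      rw [map_mul, map_zpow, fact9, hx', par_apply, ← zpow_add]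
      simp
    have h3 : ((x.1 * tau ^ (-x.2.n), 1) : GG) ∈ M := by
      have hk : ∀ k : ℕ, x.1 * tau ^ (-x.2.n) = rho ^ k →
          ((x.1 * tau ^ (-x.2.n), 1) : GG) ∈ M := by
        intro k hk
        have h5 : ((x.1 * tau ^ (-x.2.n), 1) : GG) = (rho, 1) ^ k := by
          rw [Prod.pow_mk, one_pow, hk]
        rw [h5]
        exact M.pow_mem hrho k
      rcases fact8 rho fact3 fact2 _ h2 with h | h | h
      · exact hk 0 (by rw [h, pow_zero])
      · exact hk 1 (by rw [h, pow_one])
      · exact hk 2 h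
    rw [h1]
    exact M.mul_mem (M.mul_mem (hvN _ _) h3) (hgz _)

end

end Pool.Agent.CoHopf.Ins
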